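import Mathlib
import Pool.Agent.KS6_19.UP.L.Helper278.Defs

/-! # Definitions: tracial states, banded decompositions, crossed products (MP_a0a75b_an) -/

set_option autoImplicit false

open scoped ComplexOrder
open Pool.Agent.Helper278

namespace Pool.Agent.KS6_19.UP

universe u v w

/-- `φ` is a tracial state on the star algebra `B`. -/
structure IsTracialState {B : Type w} [Ring B] [StarRing B] [Algebra ℂ B] (φ : B →ₗ[ℂ] ℂ) :
    Prop where
  one : φ 1 = 1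
  comm : ∀ x y, φ (x * y) = φ (y * x)
  nonneg : ∀ x, 0 ≤ φ (star x * x)

/-- `(V i)` is a decomposition of the tracial algebra `(B, φ)` into mutually orthogonal subspaces
that are separable in the 2-norm, with 2-norm dense sum, and `V k* V i V l` lies in the sum of a
number of the `V j` that is bounded independently of `i`. -/
structure Banded {B : Type w} [Ring B] [StarRing B] [Algebra ℂ B] [StarModule ℂ B] {I : Type v}
    (φ : B → ℂ) (V : I → Submodule ℂ B) : Prop where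
  orth : ∀ i j, i ≠ j → ∀ x ∈ V i, ∀ y ∈ V j, φ (star x * y) = 0
  dense : ∀ (x : B) (ε : ℝ), 0 < ε → ∃ y ∈ ⨆ i, V i, norm2 φ (x - y) < ε
  separable : ∀ i, ∃ D : Set B, D.Countable ∧
    ∀ x ∈ V i, ∀ ε : ℝ, 0 < ε → ∃ y ∈ D, norm2 φ (x - y) < ε
  bounded : ∀ i, ∀ a ∈ V i, ∃ C : ℝ, ∀ x : B, norm2 φ (x * a) ≤ C * norm2 φ x
  banded : ∀ k l, ∃ n : ℕ, ∀ i, ∃ F : Finset I, F.card ≤ n ∧
    ∀ a ∈ V k, ∀ x ∈ V i, ∀ b ∈ V l, star a * x * b ∈ ⨆ j ∈ F, V j

/-- `B` is the 2-norm closure of the linear span of `B₀ u_g`, `g ∈ G`, where `B₀` is a star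
subalgebra that is separable in the 2-norm and the unitaries `u_g` normalise `B₀`, multiply like the
elements of the group `G` up to elements of `B₀`, and satisfy `φ (x u_g) = 0` for `x` in `B₀` and
`g ≠ 1`. So `B` is a cocycle crossed product of `B₀` by `G`. -/
structure IsCrossedProduct {B : Type w} [Ring B] [StarRing B] [Algebra ℂ B] [StarModule ℂ B]
    {G : Type v} [Group G] (φ : B → ℂ) (B₀ : StarSubalgebra ℂ B) (u : G → B) : Prop where
  isom : ∀ g, star (u g) * u g = 1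
  coisom : ∀ g, u g * star (u g) = 1
  conj_mem : ∀ g, ∀ x ∈ B₀, u g * x * star (u g) ∈ B₀
  conj_mem' : ∀ g, ∀ x ∈ B₀, star (u g) * x * u g ∈ B₀
  mul_mem : ∀ g h, u g * u h * star (u (g * h)) ∈ B₀
  trace_zero : ∀ g, g ≠ 1 → ∀ x ∈ B₀, φ (x * u g) = 0
  dense : ∀ (x : B) (ε : ℝ), 0 < ε →
    ∃ y ∈ Submodule.span ℂ {z : B | ∃ x ∈ B₀, ∃ g, z = x * u g}, norm2 φ (x - y) < ε
  separable : ∃ D : Set B, D.Countable ∧
    ∀ x ∈ B₀, ∀ ε : ℝ, 0 < ε → ∃ y ∈ D, norm2 φ (x - y) < ε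
  bounded : ∀ a ∈ B₀, ∃ C : ℝ, ∀ x : B, norm2 φ (x * a) ≤ C * norm2 φ x

end Pool.Agent.KS6_19.UP
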