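import Mathlib
import Pool.Agent.KS6_19.UP.L.Helper278.NoBasis
import Pool.Agent.KS6_19.UP.Defs

/-! # No embedding into algebras with a banded decomposition (MP_a0a75b_an) -/

set_option autoImplicit false
set_option linter.unusedSectionVars false
set_option linter.unusedVariables false

open scoped ComplexOrder Topology
open Filter Pool.Agent.Helper278

namespace Pool.Agent.KS6_19.UP

universe u v w

section ptr

variable {B : Type w} [Ring B] [StarRing B] [Algebra ℂ B] [StarModule ℂ B]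

/-- positive tracial functionals -/
structure PTr (φ : B →ₗ[ℂ] ℂ) : Prop where
  comm : ∀ x y, φ (x * y) = φ (y * x)
  nonneg : ∀ x, 0 ≤ φ (star x * x)
  conj : ∀ x, φ (star x) = star (φ x)

variable {φ : B →ₗ[ℂ] ℂ}

/-- inner product core -/
@[instance_reducible]
noncomputable def PTr.core (h : PTr φ) : PreInnerProductSpace.Core ℂ B where
  inner x y := φ (star x * y)
  conj_inner_symm x y := by
    have : φ (star (star y * x)) = star (φ (star y * x)) := h.conj _
    rw [star_mul, star_star] at this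
    rw [this]
    rfl
  re_inner_nonneg x := by
    have := (Complex.nonneg_iff.1 (h.nonneg x)).1
    exact this
  add_left x y z := by rw [star_add, add_mul, map_add]
  smul_left x y r := by
    rw [star_smul, smul_mul_assoc, map_smul]
    rfl

theorem PTr.cauchy (h : PTr φ) (x y : B) : ‖φ (star x * y)‖ ≤ n2 φ x * n2 φ y := by
  let _ := h.core
  exact InnerProductSpace.Core.norm_inner_le_norm (𝕜 := ℂ) x y

theorem PTr.re_nonneg (h : PTr φ) (x : B) : 0 ≤ (φ (star x * x)).re :=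
  (Complex.nonneg_iff.1 (h.nonneg x)).1

theorem PTr.n2_sq (h : PTr φ) (x : B) : n2 φ x ^ 2 = (φ (star x * x)).re :=
  Real.sq_sqrt (h.re_nonneg x)

theorem PTr.n2_star (h : PTr φ) (x : B) : n2 φ (star x) = n2 φ x := by
  unfold n2
  rw [star_star, h.comm]

theorem PTr.cauchy' (h : PTr φ) (x y : B) : ‖φ (x * y)‖ ≤ n2 φ x * n2 φ y := by
  have := h.cauchy (star x) y
  rwa [star_star, h.n2_star] at this

theorem PTr.n2_zero : n2 φ (0 : B) = 0 := by
  unfold n2
  simp

theorem PTr.n2_rsmul (h : PTr φ) (r : ℝ) (hr : 0 ≤ r) (x : B) :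
    n2 φ ((r : ℂ) • x) = r * n2 φ x := by
  unfold n2
  rw [star_smul, smul_mul_smul_comm, Complex.star_def, Complex.conj_ofReal, ← Complex.ofReal_mul,
    map_smul, smul_eq_mul, Complex.re_ofReal_mul, Real.sqrt_mul (mul_nonneg hr hr),
    Real.sqrt_mul_self hr]

/-- Multiplication by a partial isometry does not increase the 2-norm. -/
theorem PTr.n2_pi_mul (h : PTr φ) (z u p : B) (hu : star u * u = p) (hp : p * p = p)
    (hps : star p = p) : n2 φ (u * z) ≤ n2 φ z := by
  unfold n2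
  refine Real.sqrt_le_sqrt ?_
  have e1 : star (u * z) * (u * z) = star z * p * z := by
    rw [star_mul, ← hu]; noncomm_ring
  have e2 : star z * z = star z * p * z + star (z - p * z) * (z - p * z) := by
    have : star (z - p * z) * (z - p * z) = star z * z - star z * p * z - star z * p * z +
        star z * (p * p) * z := by
      rw [star_sub, star_mul, hps]; noncomm_ring
    rw [this, hp]
    abel
  rw [e1, e2, map_add, Complex.add_re]
  have := h.re_nonneg (z - p * z)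
  linarith

theorem PTr.n2_mul_pi (h : PTr φ) (z u p : B) (hu : u * star u = p) (hp : p * p = p)
    (hps : star p = p) : n2 φ (z * u) ≤ n2 φ z := by
  rw [← h.n2_star (z * u), star_mul, ← h.n2_star z]
  exact h.n2_pi_mul (star z) (star u) p (by rw [star_star, hu]) hp hps

end ptr

theorem le_zero_of_forall {t C : ℝ} (hC : 0 ≤ C) (h : ∀ ε : ℝ, 0 < ε → t ≤ C * ε) : t ≤ 0 := by
  by_contra hcon
  push Not at hcon
  have h1 := h (t / (2 * (C + 1))) (by positivity)
  have h2 : C * (t / (2 * (C + 1))) < t := by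
    rw [mul_div_assoc', div_lt_iff₀ (by positivity)]
    nlinarith
  linarith

section banded

variable {B : Type w} [Ring B] [StarRing B] [Algebra ℂ B] [StarModule ℂ B]
variable {φ : B →ₗ[ℂ] ℂ} {I : Type v} {V : I → Submodule ℂ B}

theorem Banded.dense' (hV : Banded φ V) (x : B) (ε : ℝ) (hε : 0 < ε) :
    ∃ (F : Finset I) (a : I → B), (∀ i, a i ∈ V i) ∧ n2 φ (x - ∑ i ∈ F, a i) < ε := by
  classical
  obtain ⟨y, hy, hxy⟩ := hV.dense x ε hε
  rw [Submodule.mem_iSup_iff_exists_finsupp] at hy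
  obtain ⟨f, hf, hfy⟩ := hy
  refine ⟨f.support, f, hf, ?_⟩
  have : ∑ i ∈ f.support, f i = y := hfy
  rw [this]
  exact hxy

theorem Banded.bounded' (hV : Banded φ V) (i : I) (a : B) (ha : a ∈ V i) :
    ∃ C : ℝ, 0 ≤ C ∧ ∀ x : B, n2 φ (x * a) ≤ C * n2 φ x := by
  obtain ⟨C, hC⟩ := hV.bounded i a ha
  refine ⟨max C 0, le_max_right _ _, fun x => (hC x).trans ?_⟩
  exact mul_le_mul_of_nonneg_right (le_max_left _ _) (n2_nonneg _ _)

/-- heights are subadditive on sums of few components -/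
theorem Banded.sum_le (h : PTr φ) (hV : Banded φ V) (v : B) (δ : ℝ) (hδ0 : 0 ≤ δ)
    (hδ : ∀ i, ∀ x ∈ V i, ‖φ (star x * v)‖ ≤ δ * n2 φ x) (F : Finset I) (n : ℕ) (hF : F.card ≤ n)
    (y : B) (hy : y ∈ ⨆ j ∈ F, V j) : ‖φ (star y * v)‖ ≤ n * δ * n2 φ y := by
  classical
  rw [Submodule.mem_iSup_finset_iff_exists_sum] at hy
  obtain ⟨μ, hμ⟩ := hy
  have h1 : ∀ j ∈ F, n2 φ (μ j : B) ≤ n2 φ y := by
    intro j hj
    have e1 : φ (star (μ j : B) * y) = φ (star (μ j : B) * (μ j : B)) := by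
      rw [← hμ, Finset.mul_sum, map_sum, Finset.sum_eq_single j]
      · intro k _ hk
        exact hV.orth _ _ (Ne.symm hk) _ (μ j).2 _ (μ k).2
      · intro hj'
        exact absurd hj hj'
    have e2 : n2 φ (μ j : B) ^ 2 ≤ n2 φ (μ j : B) * n2 φ y := by
      rw [h.n2_sq, ← e1]
      exact (Complex.re_le_norm _).trans (h.cauchy _ _)
    rcases (n2_nonneg φ (μ j : B)).eq_or_lt with h0 | h0
    · rw [← h0]; exact n2_nonneg _ _
    · rw [sq] at e2
      exact le_of_mul_le_mul_left e2 h0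
  have e3 : φ (star y * v) = ∑ j ∈ F, φ (star (μ j : B) * v) := by
    conv_lhs => rw [← hμ]
    rw [star_sum, Finset.sum_mul, map_sum]
  rw [e3]
  refine (norm_sum_le _ _).trans ?_
  calc ∑ j ∈ F, ‖φ (star (μ j : B) * v)‖ ≤ ∑ j ∈ F, δ * n2 φ y :=
        Finset.sum_le_sum fun j hj => (hδ j _ (μ j).2).trans
          (mul_le_mul_of_nonneg_left (h1 j hj) hδ0)
    _ = F.card * (δ * n2 φ y) := by rw [Finset.sum_const, nsmul_eq_mul]
    _ ≤ n * (δ * n2 φ y) := by
        refine mul_le_mul_of_nonneg_right ?_ (mul_nonneg hδ0 (n2_nonneg _ _))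
        exact_mod_cast hF
    _ = n * δ * n2 φ y := by ring

end banded

section embed

variable {A : Type u} [Ring A] [StarRing A] [Algebra ℂ A] [StarModule ℂ A] {σ : A →ₗ[ℂ] ℂ}
variable {B : Type w} [Ring B] [StarRing B] [Algebra ℂ B] [StarModule ℂ B]
variable {φ : B →ₗ[ℂ] ℂ} {I : Type v} {V : I → Submodule ℂ B} {ι : A →⋆ₙₐ[ℂ] B} {c0 : ℝ}

/-- `ι` scales the trace by the factor `c0 > 0` -/
structure Scaled (σ : A →ₗ[ℂ] ℂ) (φ : B →ₗ[ℂ] ℂ) (ι : A →⋆ₙₐ[ℂ] B) (c0 : ℝ) : Prop where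
  pos : 0 < c0
  eq : ∀ x, φ (ι x) = (c0 : ℂ) * σ x

theorem Scaled.n2_eq (hc : Scaled σ φ ι c0) (x : A) : n2 φ (ι x) = Real.sqrt c0 * n2 σ x := by
  unfold n2
  rw [← map_star, ← map_mul, hc.eq, Complex.re_ofReal_mul, Real.sqrt_mul hc.pos.le]

theorem Scaled.coef (hφ : PTr φ) (hc : Scaled σ φ ι c0) (v : B) (x : A) :
    ‖φ (star v * ι x)‖ ≤ n2 φ v * (Real.sqrt c0 * n2 σ x) := by
  rw [← hc.n2_eq]
  exact hφ.cauchy _ _

/-- the functional `x ↦ φ (v* ι x)` -/
noncomputable def fun1 (φ : B →ₗ[ℂ] ℂ) (ι : A →⋆ₙₐ[ℂ] B) (v : B) : A →ₗ[ℂ] ℂ where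
  toFun x := φ (star v * ι x)
  map_add' x y := by rw [map_add, mul_add, map_add]
  map_smul' c x := by rw [map_smul, mul_smul_comm, map_smul]; rfl

theorem fun1_apply (v : B) (x : A) : fun1 φ ι v x = φ (star v * ι x) := rfl

/-- Approximate Riesz representation of a functional bounded in the 2-norm. -/
theorem riesz (h : TrAlg σ) (f : A →ₗ[ℂ] ℂ) (C : ℝ) (hC : 0 ≤ C) (hf : ∀ x, ‖f x‖ ≤ C * n2 σ x)
    (ε : ℝ) (hε : 0 < ε) : ∃ y : A, ∀ b : A, ‖f b - σ (star y * b)‖ ≤ ε * n2 σ b := by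
  classical
  let g : A → ℝ := fun y => n2 σ y ^ 2 - 2 * (f y).re
  have hbd : BddBelow (Set.range g) := by
    refine ⟨-C ^ 2, ?_⟩
    rintro _ ⟨y, rfl⟩
    have h1 := (Complex.re_le_norm (f y)).trans (hf y)
    show -C ^ 2 ≤ n2 σ y ^ 2 - 2 * (f y).re
    nlinarith [sq_nonneg (n2 σ y - C)]
  obtain ⟨_, ⟨y, rfl⟩, hy⟩ := exists_lt_of_csInf_lt (Set.range_nonempty g)
    (show sInf (Set.range g) < sInf (Set.range g) + ε ^ 2 by linarith [pow_pos hε 2])
  have hmin : ∀ z, g y < g z + ε ^ 2 := fun z =>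
    hy.trans_le (add_le_add (csInf_le hbd ⟨z, rfl⟩) le_rfl)
  -- the real parts
  have hre : ∀ b : A, (f b - σ (star y * b)).re ≤ ε * n2 σ b := by
    intro b
    by_contra hcon
    push Not at hcon
    obtain ⟨d, hd⟩ : ∃ d : ℝ, d = (f b - σ (star y * b)).re := ⟨_, rfl⟩
    rw [← hd] at hcon
    have hexp : ∀ t : ℝ, g (y + (t : ℂ) • b) = g y - 2 * t * d + t ^ 2 * n2 σ b ^ 2 := by
      intro t
      show n2 σ (y + (t : ℂ) • b) ^ 2 - 2 * (f (y + (t : ℂ) • b)).re =
        n2 σ y ^ 2 - 2 * (f y).re - 2 * t * d + t ^ 2 * n2 σ b ^ 2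
      have e1 : star (y + (t : ℂ) • b) * (y + (t : ℂ) • b) =
          star y * y + ((t : ℂ) • (star y * b) + (t : ℂ) • (star b * y)) +
            ((t ^ 2 : ℝ) : ℂ) • (star b * b) := by
        rw [star_add, star_smul, Complex.star_def, Complex.conj_ofReal, add_mul, mul_add, mul_add,
          smul_mul_assoc, mul_smul_comm, smul_mul_smul_comm, ← Complex.ofReal_mul, ← sq]
        abel
      have e2 : (σ (star b * y)).re = (σ (star y * b)).re := by
        have : star b * y = star (star y * b) := by rw [star_mul, star_star]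
        rw [this, h.conj, Complex.star_def, Complex.conj_re]
      rw [h.n2_sq, h.n2_sq, h.n2_sq, e1, map_add, map_add, map_add, map_smul, map_smul, map_smul,
        smul_eq_mul, smul_eq_mul, smul_eq_mul, Complex.add_re, Complex.add_re, Complex.add_re,
        Complex.re_ofReal_mul, Complex.re_ofReal_mul, Complex.re_ofReal_mul, e2, map_add, map_smul,
        smul_eq_mul, Complex.add_re, Complex.re_ofReal_mul, hd, Complex.sub_re]
      ring
    have hbn := n2_nonneg σ b
    have hdpos : 0 < d := lt_of_le_of_lt (mul_nonneg hε.le hbn) hcon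
    rcases hbn.eq_or_lt with h0 | h0
    · have h1 := hmin (y + ((ε ^ 2 / d : ℝ) : ℂ) • b)
      rw [hexp, ← h0] at h1
      have h2 : ε ^ 2 / d * d = ε ^ 2 := div_mul_cancel₀ _ hdpos.ne'
      nlinarith [pow_pos hε 2]
    · have h1 := hmin (y + ((d / n2 σ b ^ 2 : ℝ) : ℂ) • b)
      rw [hexp] at h1
      have h3 : (d / n2 σ b ^ 2) ^ 2 * n2 σ b ^ 2 = d ^ 2 / n2 σ b ^ 2 := by
        field_simp
      have h4 : 2 * (d / n2 σ b ^ 2) * d = 2 * (d ^ 2 / n2 σ b ^ 2) := by ring
      rw [h3, h4] at h1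
      have h5 : d ^ 2 / n2 σ b ^ 2 < ε ^ 2 := by linarith
      rw [div_lt_iff₀ (pow_pos h0 2)] at h5
      have h6 : d ^ 2 < (ε * n2 σ b) ^ 2 := by rw [mul_pow]; exact h5
      have h7 := abs_lt_of_sq_lt_sq h6 (mul_nonneg hε.le hbn)
      linarith [le_abs_self d]
  refine ⟨y, fun b => ?_⟩
  obtain ⟨z, hz⟩ : ∃ z : ℂ, z = f b - σ (star y * b) := ⟨_, rfl⟩
  rw [← hz]
  by_cases hz0 : z = 0
  · rw [hz0, norm_zero]
    exact mul_nonneg hε.le (n2_nonneg _ _)
  obtain ⟨ω, hω⟩ : ∃ ω : ℂ, ω = star z / ‖z‖ := ⟨_, rfl⟩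
  have hzn : (‖z‖ : ℂ) ≠ 0 := by
    rw [Ne, Complex.ofReal_eq_zero, norm_eq_zero]
    exact hz0
  have h1 : ω * z = ‖z‖ := by
    rw [hω, div_mul_eq_mul_div, Complex.star_def, mul_comm, Complex.mul_conj, Complex.normSq_eq_norm_sq,
      div_eq_iff hzn]
    push_cast
    ring
  have h2 : star ω * ω = 1 := by
    rw [hω, Complex.star_def, map_div₀, Complex.conj_conj, Complex.conj_ofReal,
      div_mul_div_comm, Complex.mul_conj, Complex.normSq_eq_norm_sq]
    rw [div_eq_one_iff_eq (mul_ne_zero hzn hzn)]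
    push_cast
    ring
  have h3 := hre (ω • b)
  have h4 : n2 σ (ω • b) = n2 σ b := by
    unfold n2
    rw [star_smul, smul_mul_smul_comm, h2, one_smul]
  rw [h4, map_smul, mul_smul_comm, map_smul, ← smul_sub, ← hz, smul_eq_mul, h1,
    Complex.ofReal_re] at h3
  exact h3

/-- Countably many elements of `A` control the functional `x ↦ φ (v* ι x)`. -/
theorem riesz_countable (h : TrAlg σ) (hφ : PTr φ) (hc : Scaled σ φ ι c0) (v : B) :
    ∃ Y : Set A, Y.Countable ∧ ∀ b : A, (∀ y ∈ Y, σ (y * b) = 0) → φ (star v * ι b) = 0 := by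
  have h0 : ∀ n : ℕ, ∃ y : A, ∀ b : A,
      ‖fun1 φ ι v b - σ (star y * b)‖ ≤ (1 / ((n : ℝ) + 1)) * n2 σ b := by
    intro n
    refine riesz h (fun1 φ ι v) (n2 φ v * Real.sqrt c0)
      (mul_nonneg (n2_nonneg _ _) (Real.sqrt_nonneg _)) (fun x => ?_) _ (by positivity)
    rw [fun1_apply, mul_assoc]
    exact hc.coef hφ v x
  choose y hy using h0
  refine ⟨Set.range fun n => star (y n), Set.countable_range _, fun b hb => ?_⟩
  have h1 : ∀ n : ℕ, ‖φ (star v * ι b)‖ ≤ (1 / ((n : ℝ) + 1)) * n2 σ b := by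
    intro n
    have h2 := hy n b
    rwa [hb _ ⟨n, rfl⟩, sub_zero] at h2
  have h2 : Tendsto (fun n : ℕ => (1 / ((n : ℝ) + 1)) * n2 σ b) atTop (𝓝 (0 * n2 σ b)) :=
    tendsto_one_div_add_atTop_nhds_zero_nat.mul_const _
  rw [zero_mul] at h2
  exact norm_eq_zero.1 (le_antisymm (ge_of_tendsto' h2 h1) (norm_nonneg _))

theorem supp_countable (hφ : PTr φ) (hV : Banded φ V) (x : B) : ∃ S : Set I, S.Countable ∧
    ∀ i, i ∉ S → ∀ v ∈ V i, φ (star v * x) = 0 := by
  classical
  choose F a ha hn using fun n : ℕ => hV.dense' x (1 / ((n : ℝ) + 1)) (by positivity)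
  refine ⟨⋃ n, (F n : Set I), Set.countable_iUnion fun n => (F n).countable_toSet, ?_⟩
  intro g hg v hv
  have hg' : ∀ n, g ∉ F n := fun n hgn => hg (Set.mem_iUnion.2 ⟨n, hgn⟩)
  have h1 : ∀ n : ℕ, ‖φ (star v * x)‖ ≤ n2 φ v * (1 / ((n : ℝ) + 1)) := by
    intro n
    have e1 : φ (star v * ∑ k ∈ F n, a n k) = 0 := by
      rw [Finset.mul_sum, map_sum]
      refine Finset.sum_eq_zero fun k hk => hV.orth _ _ ?_ _ hv _ (ha n k)
      rintro rfl
      exact hg' n hk
    have e2 : φ (star v * x) = φ (star v * (x - ∑ k ∈ F n, a n k)) := by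
      rw [mul_sub, map_sub, e1, sub_zero]
    rw [e2]
    refine (hφ.cauchy _ _).trans ?_
    exact mul_le_mul_of_nonneg_left (hn n).le (n2_nonneg _ _)
  have h2 : Tendsto (fun n : ℕ => n2 φ v * (1 / ((n : ℝ) + 1))) atTop (𝓝 (n2 φ v * 0)) :=
    tendsto_one_div_add_atTop_nhds_zero_nat.const_mul _
  rw [mul_zero] at h2
  exact norm_eq_zero.1 (le_antisymm (ge_of_tendsto' h2 h1) (norm_nonneg _))

/-- homogeneous elements of 2-norm at most one -/
def J (φ : B → ℂ) (V : I → Submodule ℂ B) : Type w := {v : B // (∃ i, v ∈ V i) ∧ n2 φ v ≤ 1}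

theorem J_coef_le (hφ : PTr φ) (hc : Scaled σ φ ι c0) (x : A) (j : J φ V) :
    ‖φ (star j.1 * ι x)‖ ≤ Real.sqrt c0 * n2 σ x := by
  refine (hc.coef hφ _ _).trans ?_
  exact mul_le_of_le_one_left (mul_nonneg (Real.sqrt_nonneg _) (n2_nonneg _ _)) j.2.2

/-- Homogeneous elements detect nonzero elements. -/
theorem exists_coef (hφ : PTr φ) (hc : Scaled σ φ ι c0) (hV : Banded φ V) (b : A)
    (hb : n2 σ b = 1) : ∃ j : J φ V, φ (star j.1 * ι b) ≠ 0 := by
  by_contra hne
  push Not at hne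
  have h0 : ∀ g, ∀ v ∈ V g, φ (star v * ι b) = 0 := by
    intro g v hv
    obtain ⟨r, hr⟩ : ∃ r : ℝ, r = (n2 φ v + 1)⁻¹ := ⟨_, rfl⟩
    have hp : 0 < n2 φ v + 1 := by have := n2_nonneg φ v; linarith
    have hr0 : 0 < r := by rw [hr]; exact inv_pos.2 hp
    have h1 : n2 φ ((r : ℂ) • v) ≤ 1 := by
      rw [hφ.n2_rsmul r hr0.le, hr, inv_mul_le_iff₀ hp]
      linarith
    have h2 := hne ⟨(r : ℂ) • v, ⟨g, (V g).smul_mem _ hv⟩, h1⟩
    have h3 : φ (star ((r : ℂ) • v) * ι b) = 0 := h2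
    rw [star_smul, smul_mul_assoc, map_smul, smul_eq_mul, Complex.star_def,
      Complex.conj_ofReal] at h3
    rcases mul_eq_zero.1 h3 with h4 | h4
    · exact absurd (Complex.ofReal_eq_zero.1 h4) hr0.ne'
    · exact h4
  have hs0 : 0 < Real.sqrt c0 := Real.sqrt_pos.2 hc.pos
  obtain ⟨F, a, ha, hn⟩ := hV.dense' (ι b) (Real.sqrt c0) hs0
  have e1 : φ (star (∑ g ∈ F, a g) * ι b) = 0 := by
    rw [star_sum, Finset.sum_mul, map_sum]
    exact Finset.sum_eq_zero fun k _ => h0 k _ (ha k)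
  have e2 : φ (star (ι b) * ι b) = φ (star (ι b - ∑ g ∈ F, a g) * ι b) := by
    rw [star_sub, sub_mul, map_sub, e1, sub_zero]
  have e3 : (φ (star (ι b) * ι b)).re = c0 := by
    rw [← hφ.n2_sq, hc.n2_eq, hb, mul_one, Real.sq_sqrt hc.pos.le]
  have e4 := Complex.re_le_norm (φ (star (ι b) * ι b))
  rw [e3, e2] at e4
  have e5 := e4.trans (hφ.cauchy (ι b - ∑ g ∈ F, a g) (ι b))
  rw [hc.n2_eq, hb, mul_one] at e5
  have e6 : n2 φ (ι b - ∑ g ∈ F, a g) * Real.sqrt c0 < Real.sqrt c0 * Real.sqrt c0 :=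
    mul_lt_mul_of_pos_right hn hs0
  rw [Real.mul_self_sqrt hc.pos.le] at e6
  linarith

theorem greedy (h : TrAlg σ) (hE : ExtProp σ) (hF : FarProp σ) (hφ : PTr φ)
    (hc : Scaled σ φ ι c0) (hV : Banded φ V) :
    ∃ s : ℕ → A, (∀ m, IsRad σ s m) ∧ ∃ c : ℝ, 0 < c ∧ ∀ m, ∃ g : J φ V,
      c ≤ ‖φ (star g.1 * ι (s m))‖ := by
  classical
  have hb0 : n2 σ (1 : A) = 1 := h.n2_iso (by rw [star_one, mul_one])
  obtain ⟨hJ0, -⟩ := exists_coef hφ hc hV 1 hb0
  obtain ⟨s, hs⟩ := exists_seq (0 : A)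
    (fun m s => IsRad σ s m ∧ ∀ k < m, ∀ b, Adm σ s k b → ∀ g : J φ V, ∃ g' : J φ V,
      ‖φ (star g.1 * ι b)‖ ≤ 2 * ‖φ (star g'.1 * ι (s k))‖)
    (by
      rintro m s s' hss ⟨h1, h2⟩
      refine ⟨h1.congr hss, fun k hk b hb g => ?_⟩
      have h3 : ∀ i < k, s' i = s i := fun i hi => (hss i (by omega)).symm
      obtain ⟨g', hg'⟩ := h2 k hk b (hb.congr h3) g
      refine ⟨g', ?_⟩
      rw [← hss k hk]
      exact hg')
    (fun s => ⟨isRad_zero h.one s, fun k hk => absurd hk (by omega)⟩)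
    (by
      rintro m s ⟨h1, h2⟩
      have hu : ∀ b, ∀ i < m, s i = Function.update s m b i := fun b i hi =>
        (Function.update_of_ne (by omega) _ _).symm
      have key : ∃ b, Adm σ s m b ∧ ∀ b', Adm σ s m b' → ∀ g : J φ V, ∃ g' : J φ V,
          ‖φ (star g.1 * ι b')‖ ≤ 2 * ‖φ (star g'.1 * ι b)‖ := by
        obtain ⟨b0, hb0⟩ := exists_adm hE s m h1
        let W : Set ℝ := {r | ∃ b, ∃ g : J φ V, Adm σ s m b ∧ r = ‖φ (star g.1 * ι b)‖}
        have hW : BddAbove W := by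
          refine ⟨Real.sqrt c0, ?_⟩
          rintro r ⟨b, g, hb, rfl⟩
          have := J_coef_le hφ hc b g
          rwa [adm_n2 h hb, mul_one] at this
        have hWn : W.Nonempty := ⟨_, b0, hJ0, hb0, rfl⟩
        by_cases hM : sSup W ≤ 0
        · refine ⟨b0, hb0, fun b' hb' g => ⟨hJ0, ?_⟩⟩
          have h3 : ‖φ (star g.1 * ι b')‖ ≤ sSup W := le_csSup hW ⟨b', g, hb', rfl⟩
          have h4 := norm_nonneg (φ (star hJ0.1 * ι b0))
          linarith
        · push Not at hM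
          obtain ⟨r, ⟨b, g', hb, rfl⟩, hr⟩ := exists_lt_of_lt_csSup hWn
            (show sSup W / 2 < sSup W by linarith)
          refine ⟨b, hb, fun b' hb' g => ⟨g', ?_⟩⟩
          have h3 : ‖φ (star g.1 * ι b')‖ ≤ sSup W := le_csSup hW ⟨b', g, hb', rfl⟩
          linarith
      obtain ⟨b, hb, hb2⟩ := key
      refine ⟨b, h1.extend b hb.1 hb.2.1 hb.2.2.1 hb.2.2.2, fun k hk => ?_⟩
      rcases Nat.lt_succ_iff_lt_or_eq.1 hk with h3 | rfl
      · intro b' hb' g
        have h4 : ∀ i < k, Function.update s m b i = s i := fun i hi => (hu b i (by omega)).symm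
        rw [← hu b k h3]
        exact h2 k h3 b' (hb'.congr h4) g
      · intro b' hb' g
        have h4 : ∀ i < k, Function.update s k b i = s i := fun i hi => (hu b i hi).symm
        rw [Function.update_self]
        exact hb2 b' (hb'.congr h4) g)
  refine ⟨s, fun m => (hs m).1, ?_⟩
  obtain ⟨b, hb1, hb2, hb3, hb4⟩ := hF s (fun m => (hs m).1)
    (Set.range (fun p : (Σ m, Idx m) => atm s p.1 p.2)) (Set.countable_range _)
  have hadm : ∀ m, Adm σ s m b := fun m => ⟨hb1, hb2, fun i _ => hb3 i, fun i => by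
    rw [h.comm]; exact hb4 _ ⟨⟨m, i⟩, rfl⟩⟩
  obtain ⟨g, hg⟩ := exists_coef hφ hc hV b (adm_n2 h (hadm 0))
  refine ⟨‖φ (star g.1 * ι b)‖ / 2, by positivity, fun m => ?_⟩
  obtain ⟨g', hg'⟩ := (hs (m + 1)).2 m (Nat.lt_succ_self m) b (hadm m) g
  exact ⟨g', by linarith⟩

theorem flat_step (h : TrAlg σ) (hE : ExtProp σ) (hF : FarProp σ) (hφ : PTr φ)
    (hc : Scaled σ φ ι c0) (hV : Banded φ V) (z : ℕ → A) (m : ℕ) (hz : IsRad σ z m) :
    ∃ b, Adm σ z m b ∧ ∀ g, ∀ v ∈ V g,
      ‖φ (star v * ι b)‖ ≤ Real.sqrt ((1 / 2) ^ m) * Real.sqrt c0 * n2 φ v := by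
  classical
  obtain ⟨t, ht, htr⟩ := hE z m hz
  have hPV := pvm_atm z m hz.1
  have hτ : ∀ i : Idx m, σ (atm z m i) = (1 / 2 : ℂ) ^ m := hz.2 m le_rfl
  choose D hDc hDd using hV.separable
  choose R hRc hR using riesz_countable h hφ hc
  have key : ∀ F : Finset (Idx m), ∃ b : A, star b = b ∧ b * b = ∑ i ∈ F, atm z m i ∧
      (∀ i < m, b * z i = z i * b) ∧ (∀ i, i ∉ F → b * atm z m i = 0) ∧
      (∀ i : Idx m, σ (atm z m i * b) = 0) ∧
      ∀ g, ∀ v ∈ V g, ‖φ (star v * ι b)‖ ≤ Real.sqrt ((1 / 2) ^ m) * Real.sqrt c0 * n2 φ v := by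
    intro F
    induction F using Finset.induction_on with
    | empty =>
      refine ⟨0, star_zero _, by simp, fun i _ => by simp, fun i _ => by simp, fun i => by simp,
        fun g v _ => ?_⟩
      rw [map_zero, mul_zero, map_zero, norm_zero]
      exact mul_nonneg (mul_nonneg (Real.sqrt_nonneg _) (Real.sqrt_nonneg _)) (n2_nonneg _ _)
    | insert i F hi ih =>
      obtain ⟨b, hb1, hb2, hb3, hb4, hb5, hb6⟩ := ih
      obtain ⟨S, hSc, hS⟩ := supp_countable hφ hV (ι b)
      let Y : Set A := (⋃ g ∈ S, ⋃ v ∈ D g, (fun y => y * atm z m i) '' R v) ∪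
        Set.range (fun k : Idx m => atm z m k * atm z m i)
      have hY : Y.Countable :=
        (hSc.biUnion fun g _ => (hDc g).biUnion fun v _ => (hRc v).image _).union
          (Set.countable_range _)
      obtain ⟨d, hd1, hd2, hd3, hd4⟩ := hF t htr Y hY
      have hdz : ∀ j < m, d * z j = z j * d := fun j hj => by rw [← ht j hj]; exact hd3 j
      have hde : ∀ k : Idx m, d * atm z m k = atm z m k * d := fun k => atm_comm z m d hdz k
      have hbe : ∀ k : Idx m, b * atm z m k = atm z m k * b := fun k => atm_comm z m b hb3 k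
      have hze : ∀ j < m, ∀ k : Idx m, z j * atm z m k = atm z m k * z j := fun j hj k =>
        atm_comm z m (z j) (fun l hl => hz.1.comm j hj l hl) k
      have hbi : b * atm z m i = 0 := hb4 i hi
      have hib : atm z m i * b = 0 := by rw [← hbe]; exact hbi
      have hee := hPV.idem i
      have hes := hPV.star_eq i
      have hre : ((1 / 2 : ℂ) ^ m).re = (1 / 2 : ℝ) ^ m := by
        have : ((1 / 2 : ℂ) ^ m) = (((1 / 2 : ℝ) ^ m : ℝ) : ℂ) := by push_cast; rfl
        rw [this, Complex.ofReal_re]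
      have f2 : n2 σ (atm z m i * d) = Real.sqrt ((1 / 2) ^ m) := by
        unfold n2
        rw [star_mul, hd1, hes]
        have : d * atm z m i * (atm z m i * d) = atm z m i := by
          calc d * atm z m i * (atm z m i * d) = d * (atm z m i * atm z m i) * d := by
                noncomm_ring
            _ = atm z m i * (d * d) := by rw [hee, hde]; noncomm_ring
            _ = _ := by rw [hd2, mul_one]
        rw [this, hτ, hre]
      have f3 : ∀ v, ‖φ (star v * ι (atm z m i * d))‖ ≤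
          Real.sqrt ((1 / 2) ^ m) * Real.sqrt c0 * n2 φ v := by
        intro v
        have := hc.coef hφ v (atm z m i * d)
        rw [f2] at this
        calc _ ≤ _ := this
          _ = _ := by ring
      refine ⟨b + atm z m i * d, ?_, ?_, ?_, ?_, ?_, ?_⟩
      · rw [star_add, star_mul, hb1, hd1, hes, hde]
      · rw [Finset.sum_insert hi, ← hb2]
        have e1 : b * (atm z m i * d) = 0 := by rw [← mul_assoc, hbi, zero_mul]
        have e2 : atm z m i * d * b = 0 := by rw [← hde, mul_assoc, hib, mul_zero]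
        have e3 : atm z m i * d * (atm z m i * d) = atm z m i := by
          calc atm z m i * d * (atm z m i * d) = atm z m i * (d * atm z m i) * d := by
                noncomm_ring
            _ = (atm z m i * atm z m i) * (d * d) := by rw [hde]; noncomm_ring
            _ = atm z m i := by rw [hee, hd2, mul_one]
        rw [add_mul, mul_add, mul_add, e1, e2, e3]
        abel
      · intro j hj
        rw [add_mul, mul_add, hb3 j hj, mul_assoc, hdz j hj, ← mul_assoc, ← hze j hj i, mul_assoc]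
      · intro k hk
        rw [Finset.mem_insert, not_or] at hk
        rw [add_mul, hb4 k hk.2, mul_assoc, hde, ← mul_assoc, hPV.orth i k (Ne.symm hk.1),
          zero_mul, add_zero]
      · intro k
        rw [mul_add, map_add, hb5 k, zero_add, ← mul_assoc, h.comm]
        exact hd4 _ (Or.inr ⟨k, rfl⟩)
      · intro g v hv
        rw [map_add, mul_add, map_add]
        by_cases hg : g ∈ S
        · have e1 : φ (star v * ι (atm z m i * d)) = 0 := by
            have h1 : ‖φ (star v * ι (atm z m i * d))‖ ≤ 0 := by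
              refine le_zero_of_forall
                (mul_nonneg (Real.sqrt_nonneg ((1 / 2) ^ m)) (Real.sqrt_nonneg c0)) fun ε hε => ?_
              obtain ⟨v', hv', hvv⟩ := hDd g v hv ε hε
              have e2 : φ (star v' * ι (atm z m i * d)) = 0 := by
                refine hR v' _ fun y hy => ?_
                rw [← mul_assoc, h.comm]
                refine hd4 _ (Or.inl ?_)
                exact Set.mem_biUnion hg (Set.mem_biUnion hv' ⟨y, hy, rfl⟩)
              have e3 : φ (star v * ι (atm z m i * d)) =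
                  φ (star (v - v') * ι (atm z m i * d)) := by
                rw [star_sub, sub_mul, map_sub, e2, sub_zero]
              rw [e3]
              refine (f3 (v - v')).trans ?_
              exact mul_le_mul_of_nonneg_left (le_of_lt hvv)
                (mul_nonneg (Real.sqrt_nonneg _) (Real.sqrt_nonneg _))
            exact norm_eq_zero.1 (le_antisymm h1 (norm_nonneg _))
          rw [e1, add_zero]
          exact hb6 g v hv
        · rw [hS g hg v hv, zero_add]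
          exact f3 v
  obtain ⟨b, hb1, hb2, hb3, hb4, hb5, hb6⟩ := key Finset.univ
  exact ⟨b, ⟨hb1, by rw [hb2, hPV.sum], hb3, hb5⟩, hb6⟩

theorem flat (h : TrAlg σ) (hE : ExtProp σ) (hF : FarProp σ) (hφ : PTr φ)
    (hc : Scaled σ φ ι c0) (hV : Banded φ V) :
    ∃ z : ℕ → A, (∀ m, IsRad σ z m) ∧ ∀ m g, ∀ v ∈ V g,
      ‖φ (star v * ι (z m))‖ ≤ Real.sqrt ((1 / 2) ^ m) * Real.sqrt c0 * n2 φ v := by
  classical
  obtain ⟨z, hz⟩ := exists_seq (0 : A)
    (fun m z => IsRad σ z m ∧ ∀ k < m, ∀ g : I, ∀ v ∈ V g,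
      ‖φ (star v * ι (z k))‖ ≤ Real.sqrt ((1 / 2) ^ k) * Real.sqrt c0 * n2 φ v)
    (by
      rintro m s s' hss ⟨h1, h2⟩
      refine ⟨h1.congr hss, fun k hk g v hv => ?_⟩
      rw [← hss k hk]
      exact h2 k hk g v hv)
    (fun s => ⟨isRad_zero h.one s, fun k hk => absurd hk (by omega)⟩)
    (by
      rintro m z ⟨h1, h2⟩
      obtain ⟨b, hb, hb2⟩ := flat_step h hE hF hφ hc hV z m h1
      refine ⟨b, h1.extend b hb.1 hb.2.1 hb.2.2.1 hb.2.2.2, fun k hk => ?_⟩
      rcases Nat.lt_succ_iff_lt_or_eq.1 hk with h3 | rfl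
      · intro g v hv
        rw [Function.update_of_ne (by omega)]
        exact h2 k h3 g v hv
      · intro g v hv
        rw [Function.update_self]
        exact hb2 g v hv)
  exact ⟨z, fun m => (hz m).1, fun m g => (hz (m + 1)).2 m (Nat.lt_succ_self m) g⟩

/-- Conjugation by a fixed partial isometry does not increase small heights too much. -/
theorem height (hφ : PTr φ) (hV : Banded φ V) (p : B) (hp : p * p = p) (hps : star p = p) (w : B)
    (hw1 : star w * w = p) (hw2 : w * star w = p) (ε : ℝ) (hε : 0 < ε) :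
    ∃ K : ℝ, 0 ≤ K ∧ ∀ v : B, star v * v = p → v * star v = p → v * p = v → ∀ δ : ℝ, 0 ≤ δ →
      (∀ g, ∀ x ∈ V g, ‖φ (star x * v)‖ ≤ δ * n2 φ x) →
        ∀ g, ∀ x ∈ V g, n2 φ x ≤ 1 → ‖φ (star x * (w * v * star w))‖ ≤ K * δ + ε := by
  classical
  obtain ⟨E1, a, ha, hE1⟩ := hV.dense' w (ε / 2) (by positivity)
  choose Ca hCa0 hCa using fun k => hV.bounded' k (a k) (ha k)
  obtain ⟨M1, hM1⟩ : ∃ M1 : ℝ, M1 = ∑ k ∈ E1, Ca k := ⟨_, rfl⟩
  have hM10 : 0 ≤ M1 := by rw [hM1]; exact Finset.sum_nonneg fun k _ => hCa0 _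
  obtain ⟨ε2, hε2⟩ : ∃ ε2 : ℝ, ε2 = ε / (2 * (M1 + 1)) := ⟨_, rfl⟩
  have hε2p : 0 < ε2 := by rw [hε2]; positivity
  obtain ⟨E2, b, hb, hE2⟩ := hV.dense' w ε2 hε2p
  choose Cb hCb0 hCb using fun k => hV.bounded' k (b k) (hb k)
  choose n F hFn hFm using hV.banded
  obtain ⟨r1, hr1⟩ : ∃ r1 : B, r1 = w - ∑ k ∈ E1, a k := ⟨_, rfl⟩
  obtain ⟨r2, hr2⟩ : ∃ r2 : B, r2 = w - ∑ l ∈ E2, b l := ⟨_, rfl⟩
  have hr1n : n2 φ r1 ≤ ε / 2 := by rw [hr1]; exact le_of_lt hE1
  have hr2n : n2 φ r2 ≤ ε2 := by rw [hr2]; exact le_of_lt hE2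
  refine ⟨∑ k ∈ E1, ∑ l ∈ E2, (n k l : ℝ) * (Cb l * Ca k),
    Finset.sum_nonneg fun k _ => Finset.sum_nonneg fun l _ =>
      mul_nonneg (Nat.cast_nonneg _) (mul_nonneg (hCb0 _) (hCa0 _)), ?_⟩
  intro v hv1 hv2 hvp δ hδ0 hδ g x hx hx1
  have hw : w = r1 + ∑ k ∈ E1, a k := by rw [hr1, sub_add_cancel]
  have hsw : star w = star r2 + ∑ l ∈ E2, star (b l) := by
    have h1 : w = r2 + ∑ l ∈ E2, b l := by rw [hr2, sub_add_cancel]
    conv_lhs => rw [h1]
    rw [star_add, star_sum]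
  have hxa : ∀ k, n2 φ (star x * a k) ≤ Ca k := by
    intro k
    refine (hCa k (star x)).trans ?_
    rw [hφ.n2_star]
    exact mul_le_of_le_one_right (hCa0 _) hx1
  -- inner estimate
  have hin : ∀ k ∈ E1, ‖φ (star x * a k * v * star w)‖ ≤
      (∑ l ∈ E2, (n k l : ℝ) * (Cb l * Ca k)) * δ + Ca k * ε2 := by
    intro k hk
    have hterm : ∀ l ∈ E2, ‖φ (star x * a k * v * star (b l))‖ ≤
        (n k l : ℝ) * (Cb l * Ca k) * δ := by
      intro l hl
      have e : φ (star x * a k * v * star (b l)) = φ (star (star (a k) * x * b l) * v) := by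
        rw [hφ.comm, star_mul, star_mul, star_star]
        congr 1
        noncomm_ring
      rw [e]
      have hmem := hFm k l g (a k) (ha k) x hx (b l) (hb l)
      refine (hV.sum_le hφ v δ hδ0 hδ _ _ (hFn k l g) _ hmem).trans ?_
      have h1 : n2 φ (star (a k) * x * b l) ≤ Cb l * n2 φ (star (a k) * x) :=
        hCb l (star (a k) * x)
      have h2 : n2 φ (star (a k) * x) ≤ Ca k := by
        have : star (a k) * x = star (star x * a k) := by rw [star_mul, star_star]
        rw [this, hφ.n2_star]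
        exact hxa k
      have h3 : n2 φ (star (a k) * x * b l) ≤ Cb l * Ca k :=
        h1.trans (mul_le_mul_of_nonneg_left h2 (hCb0 _))
      calc (n k l : ℝ) * δ * n2 φ (star (a k) * x * b l) ≤ (n k l : ℝ) * δ * (Cb l * Ca k) :=
            mul_le_mul_of_nonneg_left h3 (mul_nonneg (Nat.cast_nonneg _) hδ0)
        _ = (n k l : ℝ) * (Cb l * Ca k) * δ := by ring
    have e1 : star x * a k * v * star w = star x * a k * v * star r2 +
        ∑ l ∈ E2, star x * a k * v * star (b l) := by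
      conv_lhs => rw [hsw]
      rw [mul_add, Finset.mul_sum]
    rw [e1, map_add, map_sum]
    refine (norm_add_le _ _).trans ?_
    have e2 : ‖φ (star x * a k * v * star r2)‖ ≤ Ca k * ε2 := by
      refine (hφ.cauchy' _ _).trans ?_
      rw [hφ.n2_star]
      refine mul_le_mul ((hφ.n2_mul_pi _ v p hv2 hp hps).trans (hxa k)) hr2n (n2_nonneg _ _)
        (hCa0 _)
    have e3 : ‖∑ l ∈ E2, φ (star x * a k * v * star (b l))‖ ≤
        (∑ l ∈ E2, (n k l : ℝ) * (Cb l * Ca k)) * δ := by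
      refine (norm_sum_le _ _).trans ?_
      refine (Finset.sum_le_sum hterm).trans ?_
      rw [← Finset.sum_mul]
    linarith
  have e1 : star x * (w * v * star w) = star x * r1 * (v * star w) +
      ∑ k ∈ E1, star x * a k * v * star w := by
    have e0 : star x * (w * v * star w) =
        star x * (r1 + ∑ k ∈ E1, a k) * (v * star w) := by
      rw [← hw]
      simp only [mul_assoc]
    rw [e0, mul_add, add_mul, Finset.mul_sum, Finset.sum_mul]
    congr 1
    refine Finset.sum_congr rfl fun k _ => ?_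
    rw [← mul_assoc]
  rw [e1, map_add, map_sum]
  refine (norm_add_le _ _).trans ?_
  have e2 : ‖φ (star x * r1 * (v * star w))‖ ≤ ε / 2 := by
    rw [hφ.comm, ← mul_assoc]
    refine (hφ.cauchy' _ _).trans ?_
    have hpi : star (v * star w) * (v * star w) = p := by
      rw [star_mul, star_star]
      calc w * star v * (v * star w) = w * (star v * v) * star w := by noncomm_ring
        _ = w * p * star w := by rw [hv1]
        _ = w * (star w * w) * star w := by rw [hw1]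
        _ = (w * star w) * (w * star w) := by noncomm_ring
        _ = p := by rw [hw2, hp]
    have h3 : n2 φ (v * star w * star x) ≤ 1 := by
      refine (hφ.n2_pi_mul _ (v * star w) p hpi hp hps).trans ?_
      rw [hφ.n2_star]
      exact hx1
    calc n2 φ (v * star w * star x) * n2 φ r1 ≤ 1 * (ε / 2) :=
          mul_le_mul h3 hr1n (n2_nonneg _ _) zero_le_one
      _ = ε / 2 := one_mul _
  have e3 : ‖∑ k ∈ E1, φ (star x * a k * v * star w)‖ ≤
      (∑ k ∈ E1, ∑ l ∈ E2, (n k l : ℝ) * (Cb l * Ca k)) * δ + M1 * ε2 := by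
    refine (norm_sum_le _ _).trans ?_
    refine (Finset.sum_le_sum hin).trans ?_
    rw [Finset.sum_add_distrib, ← Finset.sum_mul, ← Finset.sum_mul, ← hM1]
  have e4 : M1 * ε2 ≤ ε / 2 := by
    rw [hε2, mul_div_assoc', div_le_div_iff₀ (by positivity) two_pos]
    nlinarith
  linarith

/-- There is no embedding into an algebra with a banded decomposition. -/
theorem no_embedding (h : TrAlg σ) (hE : ExtProp σ) (hF : FarProp σ) (hC : ConjProp σ)
    (hφ : PTr φ) (hV : Banded φ V) (hc : Scaled σ φ ι c0) : False := by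
  obtain ⟨s, hs, c, hcp, hsc⟩ := greedy h hE hF hφ hc hV
  obtain ⟨z, hz, hzc⟩ := flat h hE hF hφ hc hV
  obtain ⟨w, hw1, hw2, hw⟩ := hC z s hz hs
  have hp : ι (1 : A) * ι 1 = ι 1 := by rw [← map_mul, one_mul]
  have hps : star (ι (1 : A)) = ι 1 := by rw [← map_star, star_one]
  obtain ⟨K, hK, hKh⟩ := height hφ hV (ι 1) hp hps (ι w) (by rw [← map_star, ← map_mul, hw1])
    (by rw [← map_star, ← map_mul, hw2]) (c / 2) (by positivity)
  obtain ⟨t, ht⟩ : ∃ t : ℝ, t = c / (2 * (K * Real.sqrt c0 + 1)) := ⟨_, rfl⟩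
  have hKc : 0 ≤ K * Real.sqrt c0 := mul_nonneg hK (Real.sqrt_nonneg _)
  have ht0 : 0 < t := by rw [ht]; positivity
  obtain ⟨m, hm⟩ := exists_pow_lt_of_lt_one (show 0 < t ^ 2 by positivity)
    (show (1 / 2 : ℝ) < 1 by norm_num)
  have hm' : Real.sqrt ((1 / 2) ^ m) < t := by
    rw [Real.sqrt_lt' ht0]
    exact hm
  obtain ⟨j, hj⟩ := hsc m
  obtain ⟨g, hg⟩ := j.2.1
  have hzz : z m * z m = 1 := (hz (m + 1)).1.sq m (Nat.lt_succ_self m)
  have hzs : star (z m) = z m := (hz (m + 1)).1.sa m (Nat.lt_succ_self m)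
  have hv1 : star (ι (z m)) * ι (z m) = ι 1 := by rw [← map_star, ← map_mul, hzs, hzz]
  have hv2 : ι (z m) * star (ι (z m)) = ι 1 := by rw [← map_star, ← map_mul, hzs, hzz]
  have hv3 : ι (z m) * ι 1 = ι (z m) := by rw [← map_mul, mul_one]
  have h1 := hKh (ι (z m)) hv1 hv2 hv3 (Real.sqrt ((1 / 2) ^ m) * Real.sqrt c0)
    (mul_nonneg (Real.sqrt_nonneg _) (Real.sqrt_nonneg _)) (hzc m) g j.1 hg j.2.2
  rw [← map_star, ← map_mul, ← map_mul, hw m] at h1
  have h2 : K * (Real.sqrt ((1 / 2) ^ m) * Real.sqrt c0) < c / 2 := by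
    have h3 : K * (Real.sqrt ((1 / 2) ^ m) * Real.sqrt c0) ≤ (K * Real.sqrt c0) * t := by
      calc K * (Real.sqrt ((1 / 2) ^ m) * Real.sqrt c0) =
          (K * Real.sqrt c0) * Real.sqrt ((1 / 2) ^ m) := by ring
        _ ≤ _ := mul_le_mul_of_nonneg_left hm'.le hKc
    have h4 : (K * Real.sqrt c0) * t < c / 2 := by
      rw [ht, mul_div_assoc', div_lt_div_iff₀ (by positivity) two_pos]
      nlinarith
    linarith
  linarith

end embed

end Pool.Agent.KS6_19.UP
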