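import Mathlib
import Pool.Agent.KS6_19.UP.L.Helper278.GroupMain
import Pool.Agent.KS6_19.UP.Embed

/-! # Tracial ultrapowers of II₁ factors do not embed into group von Neumann algebras -/

set_option autoImplicit false
set_option linter.unusedSectionVars false
set_option linter.unusedVariables false

open scoped InnerProductSpace ComplexOrder Topology BoundedContinuousFunction
open Filter Pool.Agent.Helper278

namespace Pool.Agent.KS6_19.UP

universe u v w

section general

variable {B : Type w} [Ring B] [StarRing B] [Algebra ℂ B] [StarModule ℂ B] {φ : B →ₗ[ℂ] ℂ}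

theorem ptr_of_isTr (h : IsTr φ) : PTr φ := by
  refine ⟨h.comm, h.nonneg, fun x => ?_⟩
  have h1 := (Complex.nonneg_iff.1 (h.nonneg (1 + x))).2
  have h2 := (Complex.nonneg_iff.1 (h.nonneg (1 + Complex.I • x))).2
  have h3 := (Complex.nonneg_iff.1 (h.nonneg x)).2
  have e1 : star (1 + x) * (1 + x) = 1 + (x + star x) + star x * x := by
    rw [star_add, star_one]; noncomm_ring
  have e2 : star (1 + Complex.I • x) * (1 + Complex.I • x) =
      1 + (Complex.I • x - Complex.I • star x) + star x * x := by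
    rw [star_add, star_one, star_smul, Complex.star_def, Complex.conj_I, add_mul, mul_add, mul_add,
      one_mul, one_mul, mul_one, smul_mul_smul_comm, neg_mul, Complex.I_mul_I, neg_neg, one_smul,
      neg_smul]
    abel
  rw [e1, map_add, map_add, map_add, h.one] at h1
  rw [e2, map_add, map_add, map_sub, map_smul, map_smul, h.one] at h2
  simp only [Complex.add_im, Complex.sub_im, Complex.one_im, smul_eq_mul, Complex.I_mul_im,
    ← h3] at h1 h2
  apply Complex.ext
  · rw [Complex.star_def, Complex.conj_re]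
    linarith
  · rw [Complex.star_def, Complex.conj_im]
    linarith


theorem isTr_of_tracial (h : IsTracialState φ) : IsTr φ := ⟨h.one, h.comm, h.nonneg⟩

theorem PTr.n2_smul (h : PTr φ) (c : ℂ) (x : B) : n2 φ (c • x) = ‖c‖ * n2 φ x := by
  unfold n2
  have hc : star c * c = ((‖c‖ ^ 2 : ℝ) : ℂ) := by
    rw [mul_comm, Complex.star_def, Complex.mul_conj, Complex.normSq_eq_norm_sq]
  rw [star_smul, smul_mul_smul_comm, hc, map_smul, smul_eq_mul, Complex.re_ofReal_mul,
    Real.sqrt_mul (sq_nonneg _), Real.sqrt_sq (norm_nonneg _)]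

section crossed

variable {G : Type v} [Group G] {B₀ : StarSubalgebra ℂ B} {u : G → B}

/-- the homogeneous components -/
def comp (B₀ : StarSubalgebra ℂ B) (u : G → B) (g : G) : Submodule ℂ B :=
  (Subalgebra.toSubmodule B₀.toSubalgebra).map (LinearMap.mulRight ℂ (u g))

theorem mem_comp (g : G) (z : B) : z ∈ comp B₀ u g ↔ ∃ x ∈ B₀, x * u g = z := by
  unfold comp
  rw [Submodule.mem_map]
  rfl

/-- `u_h ∈ B₀ u_g u_{g⁻¹h}` -/
theorem IsCrossedProduct.fac {φ : B → ℂ} (h : IsCrossedProduct φ B₀ u) (g k : G) :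
    ∃ c ∈ B₀, u (g * k) = c * (u g * u k) := by
  refine ⟨star (u g * u k * star (u (g * k))), star_mem (h.mul_mem g k), ?_⟩
  rw [star_mul, star_mul, star_star]
  have e : u (g * k) * (star (u k) * star (u g)) * (u g * u k) =
      u (g * k) * (star (u k) * (star (u g) * u g) * u k) := by noncomm_ring
  rw [e, h.isom, mul_one, h.isom, mul_one]

theorem IsCrossedProduct.mul_eq {φ : B → ℂ} (h : IsCrossedProduct φ B₀ u) (g k : G) :
    ∃ c ∈ B₀, u g * u k = c * u (g * k) := by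
  refine ⟨u g * u k * star (u (g * k)), h.mul_mem g k, ?_⟩
  rw [mul_assoc, h.isom, mul_one]

theorem IsCrossedProduct.orth (hT : PTr φ) (h : IsCrossedProduct φ B₀ u) (i j : G) (hij : i ≠ j)
    (a b : B) (ha : a ∈ B₀) (hb : b ∈ B₀) : φ (star (a * u i) * (b * u j)) = 0 := by
  obtain ⟨c, hc, hce⟩ := h.fac (j * i⁻¹) i
  rw [inv_mul_cancel_right] at hce
  have e1 : star (a * u i) * (b * u j) = star (u i) * (star a * b * u j) := by
    rw [star_mul]; noncomm_ring
  rw [e1, hT.comm, hce]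
  have e2 : star a * b * (c * (u (j * i⁻¹) * u i)) * star (u i) =
      star a * b * c * u (j * i⁻¹) * (u i * star (u i)) := by noncomm_ring
  rw [e2, h.coisom, mul_one]
  refine h.trace_zero _ ?_ _ (MulMemClass.mul_mem (MulMemClass.mul_mem (star_mem ha) hb) hc)
  intro h1
  exact hij (mul_inv_eq_one.1 h1).symm

theorem crossed_banded (hT : PTr φ) (h : IsCrossedProduct φ B₀ u) : Banded φ (comp B₀ u) := by
  classical
  refine ⟨?_, ?_, ?_, ?_, ?_⟩
  · intro i j hij x hx y hy
    obtain ⟨a, ha, rfl⟩ := (mem_comp i x).1 hx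
    obtain ⟨b, hb, rfl⟩ := (mem_comp j y).1 hy
    exact h.orth hT i j hij a b ha hb
  · intro x ε hε
    obtain ⟨y, hy, hxy⟩ := h.dense x ε hε
    refine ⟨y, ?_, hxy⟩
    refine (Submodule.span_le.2 ?_) hy
    rintro z ⟨b, hb, g, rfl⟩
    exact (le_iSup (comp B₀ u) g) ((mem_comp g _).2 ⟨b, hb, rfl⟩)
  · intro i
    obtain ⟨D, hD, hDd⟩ := h.separable
    refine ⟨(fun y => y * u i) '' D, hD.image _, ?_⟩
    intro x hx ε hε
    obtain ⟨a, ha, rfl⟩ := (mem_comp i x).1 hx
    obtain ⟨y, hy, hay⟩ := hDd a ha ε hε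
    refine ⟨y * u i, ⟨y, hy, rfl⟩, ?_⟩
    rw [← sub_mul]
    exact lt_of_le_of_lt (hT.n2_mul_pi (a - y) (u i) 1 (h.coisom i) (mul_one 1) (star_one B)) hay
  · intro i x hx
    obtain ⟨a, ha, rfl⟩ := (mem_comp i x).1 hx
    obtain ⟨C, hC⟩ := h.bounded a ha
    refine ⟨C, fun z => ?_⟩
    rw [← mul_assoc]
    exact (hT.n2_mul_pi (z * a) (u i) 1 (h.coisom i) (mul_one 1) (star_one B)).trans (hC z)
  · intro k l
    refine ⟨1, fun i => ⟨{k⁻¹ * i * l}, by rw [Finset.card_singleton], ?_⟩⟩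
    intro x hx y hy z hz
    obtain ⟨a, ha, rfl⟩ := (mem_comp k x).1 hx
    obtain ⟨b, hb, rfl⟩ := (mem_comp i y).1 hy
    obtain ⟨c, hc, rfl⟩ := (mem_comp l z).1 hz
    rw [Finset.iSup_singleton, mem_comp]
    obtain ⟨d, hd, hde⟩ := h.fac k (k⁻¹ * i)
    rw [mul_inv_cancel_left] at hde
    obtain ⟨e, he, hee⟩ := h.mul_eq (k⁻¹ * i) l
    have e1 : star (a * u k) * (b * u i) * (c * u l) =
        (star (u k) * (star a * b * d) * u k) * (u (k⁻¹ * i) * c * star (u (k⁻¹ * i))) * e *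
          u (k⁻¹ * i * l) := by
      have e2 : u (k⁻¹ * i) * c * u l = u (k⁻¹ * i) * c * (star (u (k⁻¹ * i)) *
          u (k⁻¹ * i)) * u l := by rw [h.isom, mul_one]
      calc star (a * u k) * (b * u i) * (c * u l) =
            star (u k) * (star a * b) * u i * (c * u l) := by rw [star_mul]; noncomm_ring
        _ = star (u k) * (star a * b) * (d * (u k * u (k⁻¹ * i))) * (c * u l) := by rw [← hde]
        _ = (star (u k) * (star a * b * d) * u k) * (u (k⁻¹ * i) * c * u l) := by noncomm_ring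
        _ = (star (u k) * (star a * b * d) * u k) * (u (k⁻¹ * i) * c * (star (u (k⁻¹ * i)) *
              u (k⁻¹ * i)) * u l) := by rw [← e2]
        _ = (star (u k) * (star a * b * d) * u k) * (u (k⁻¹ * i) * c * star (u (k⁻¹ * i))) *
              (u (k⁻¹ * i) * u l) := by noncomm_ring
        _ = _ := by rw [hee]; noncomm_ring
    rw [e1]
    exact ⟨_, mul_mem (mul_mem (h.conj_mem' k _ (mul_mem (mul_mem (star_mem ha) hb) hd))
      (h.conj_mem _ c hc)) he, rfl⟩

end crossed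

end general

section ultra

variable {H : Type u} [NormedAddCommGroup H] [InnerProductSpace ℂ H] [CompleteSpace H]
variable {N : VonNeumannAlgebra H}
variable {Q : Type u} [Ring Q] [StarRing Q] [Algebra ℂ Q] [StarModule ℂ Q]
variable {T : TracialState N} {U : Ultrafilter ℕ} {π : (ℕ →ᵇ Elt N) →⋆ₐ[ℂ] Q} {σ : Q → ℂ}

/-- Homomorphisms from the ultrapower to an algebra with a banded decomposition vanish. -/
theorem no_hom (hU : ∀ n, {n} ∉ U) (hπ : IsTracialUltrapower T.τ U π σ)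
    (hL : LyapProp T.τ) (hN : HasTrivialCenter N) {B : Type w} [Ring B] [StarRing B] [Algebra ℂ B]
    [StarModule ℂ B] (φ : B →ₗ[ℂ] ℂ) (hφ : IsTr φ) {I : Type v} (V : I → Submodule ℂ B)
    (hV : Banded φ V) (f : Q →⋆ₙₐ[ℂ] B) : φ (f 1) = 0 := by
  by_contra hne
  have hP := ptr_of_isTr hφ
  have h0 : 0 ≤ φ (f 1) := by
    have := hφ.nonneg (f 1)
    rwa [← map_star, ← map_mul, star_one, one_mul] at this
  obtain ⟨c0, hc0⟩ : ∃ c0 : ℝ, c0 = (φ (f 1)).re := ⟨_, rfl⟩
  have hcc : φ (f 1) = (c0 : ℂ) := by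
    rw [hc0]
    exact Complex.ext rfl (Complex.nonneg_iff.1 h0).2.symm
  have hcpos : 0 < c0 := by
    refine lt_of_le_of_ne (by rw [hc0]; exact (Complex.nonneg_iff.1 h0).1) ?_
    intro h
    apply hne
    rw [hcc, ← h, Complex.ofReal_zero]
  have hc0' : (c0 : ℂ) ≠ 0 := Complex.ofReal_ne_zero.2 hcpos.ne'
  let ψ : Q →ₗ[ℂ] ℂ :=
    { toFun := fun x => (c0 : ℂ)⁻¹ * φ (f x)
      map_add' := fun x y => by rw [map_add, map_add, mul_add]
      map_smul' := fun c x => by
        rw [map_smul, map_smul, smul_eq_mul, RingHom.id_apply, smul_eq_mul]; ring }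
  have hψ : ∀ x, ψ x = (c0 : ℂ)⁻¹ * φ (f x) := fun x => rfl
  have hψT : IsTr ψ := by
    refine ⟨?_, ?_, ?_⟩
    · rw [hψ, hcc, inv_mul_cancel₀ hc0']
    · intro x y
      rw [hψ, hψ, map_mul f, map_mul f, hφ.comm]
    · intro x
      rw [hψ, map_mul f, map_star, ← Complex.ofReal_inv]
      exact mul_nonneg (Complex.zero_le_real.2 (inv_nonneg.2 hcpos.le)) (hφ.nonneg _)
  have hψσ := trace_unique hπ hL hN ψ hψT
  refine no_embedding (sigma_trAlg hπ) (extProp_ultra hπ hL) (farProp_ultra hU hπ hL)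
    (conjProp_ultra hU hπ hL hN) hP hV (ι := f) (c0 := c0) ⟨hcpos, fun x => ?_⟩
  have h1 : sigmaL hπ x = ψ x := (hψσ x).symm
  rw [h1, hψ, mul_inv_cancel_left₀ hc0']

end ultra

section group

variable {G : Type v} [Group G] {K : Type w} [NormedAddCommGroup K] [InnerProductSpace ℂ K]
  [CompleteSpace K] (b : HilbertBasis G ℂ K)

theorem trG_faithful (x : Elt (LK b)) (hx : trG b (star x * x) = 0) : x = 0 := by
  have h1 : trG b (star x * x) = ⟪(x : K →L[ℂ] K) (b 1), (x : K →L[ℂ] K) (b 1)⟫_ℂ := by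
    rw [← ContinuousLinearMap.adjoint_inner_right, ← ContinuousLinearMap.star_eq_adjoint]
    rfl
  rw [h1, inner_self_eq_zero] at hx
  apply Subtype.ext
  apply ext_basis b
  intro g
  apply ext_coef b
  intro k
  rw [coef_apply b _ x.2, hx]
  simp

theorem trAlg_trG : TrAlg (trG b) :=
  ⟨(isTr_trG b).one, (isTr_trG b).comm, (isTr_trG b).nonneg, (ptr_of_isTr (isTr_trG b)).conj,
    trG_faithful b⟩

theorem parseval_canU : Parseval (trG b) (canU b) := by
  intro x
  have h1 := parseval_group b x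
  rw [(trAlg_trG b).n2_sq]
  exact h1

theorem crossed_group : IsCrossedProduct (trG b) (⊥ : StarSubalgebra ℂ (Elt (LK b)))
    (fun g : G => (canU b g : Elt (LK b))) := by
  have hT := ptr_of_isTr (isTr_trG b)
  refine ⟨fun g => um (canU b) g, fun g => um' (canU b) g, ?_, ?_, ?_, ?_, ?_, ?_, ?_⟩
  · intro g x hx
    obtain ⟨c, rfl⟩ := StarSubalgebra.mem_bot.1 hx
    rw [← Algebra.commutes, mul_assoc, um', mul_one]
    exact hx
  · intro g x hx
    obtain ⟨c, rfl⟩ := StarSubalgebra.mem_bot.1 hx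
    rw [← Algebra.commutes, mul_assoc, um, mul_one]
    exact hx
  · intro g h
    show (canU b g : Elt (LK b)) * (canU b h : Elt (LK b)) *
      star ((canU b (g * h) : unitary (Elt (LK b))) : Elt (LK b)) ∈ _
    rw [← umul, um']
    exact one_mem _
  · intro g hg x hx
    obtain ⟨c, rfl⟩ := StarSubalgebra.mem_bot.1 hx
    show trG b (algebraMap ℂ (Elt (LK b)) c * (canU b g : Elt (LK b))) = 0
    rw [Algebra.algebraMap_eq_smul_one, smul_mul_assoc, one_mul, map_smul]
    have h1 : trG b (canU b g : Elt (LK b)) = 0 := by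
      show ⟪b 1, lamK b g (b 1)⟫_ℂ = 0
      rw [lamK_basis, mul_one]
      exact inner_bb b _ _ (Ne.symm hg)
    rw [h1, smul_zero]
  · intro x ε hε
    obtain ⟨E, hE⟩ := approx (trAlg_trG b) (parseval_canU b) x (ε / 2) (by positivity)
    refine ⟨_, ?_, lt_of_le_of_lt hE (by linarith)⟩
    refine Submodule.sum_mem _ fun g _ => Submodule.subset_span ?_
    refine ⟨algebraMap ℂ (Elt (LK b)) (trG b (star (canU b g : Elt (LK b)) * x)),
      StarSubalgebra.mem_bot.2 ⟨_, rfl⟩, g, ?_⟩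
    rw [Algebra.algebraMap_eq_smul_one, smul_mul_assoc, one_mul]
  · obtain ⟨s, hs, hsd⟩ := TopologicalSpace.exists_countable_dense ℂ
    refine ⟨(fun c => algebraMap ℂ (Elt (LK b)) c) '' s, hs.image _, ?_⟩
    intro x hx ε hε
    obtain ⟨c, rfl⟩ := StarSubalgebra.mem_bot.1 hx
    obtain ⟨d, hd, hcd⟩ := Metric.mem_closure_iff.1 (hsd c) ε hε
    refine ⟨_, ⟨d, hd, rfl⟩, ?_⟩
    show n2 (trG b) (algebraMap ℂ (Elt (LK b)) c - algebraMap ℂ (Elt (LK b)) d) < ε
    rw [← map_sub, Algebra.algebraMap_eq_smul_one, hT.n2_smul,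
      (trAlg_trG b).n2_iso (by rw [star_one, mul_one]), mul_one]
    rwa [dist_eq_norm] at hcd
  · intro a ha
    obtain ⟨c, rfl⟩ := StarSubalgebra.mem_bot.1 ha
    refine ⟨‖c‖, fun x => ?_⟩
    show n2 (trG b) (x * algebraMap ℂ (Elt (LK b)) c) ≤ ‖c‖ * n2 (trG b) x
    rw [← Algebra.commutes, Algebra.algebraMap_eq_smul_one, smul_mul_assoc, one_mul, hT.n2_smul]

variable {H : Type u} [NormedAddCommGroup H] [InnerProductSpace ℂ H] [CompleteSpace H]
variable {N : VonNeumannAlgebra H}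
variable {Q : Type u} [Ring Q] [StarRing Q] [Algebra ℂ Q] [StarModule ℂ Q]
variable {T : TracialState N} {U : Ultrafilter ℕ} {π : (ℕ →ᵇ Elt N) →⋆ₐ[ℂ] Q} {σ : Q → ℂ}

theorem hom_zero_aux (hU : ∀ n, {n} ∉ U) (hπ : IsTracialUltrapower T.τ U π σ)
    (hL : LyapProp T.τ) (hN : HasTrivialCenter N) (f : Q →⋆ₙₐ[ℂ] Elt (LK b)) : f = 0 := by
  have h1 := no_hom hU hπ hL hN (trG b) (isTr_trG b) _
    (crossed_banded (ptr_of_isTr (isTr_trG b)) (crossed_group b)) f
  have h2 : f 1 = 0 := by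
    apply trG_faithful b
    rw [← map_star, ← map_mul, star_one, one_mul]
    exact h1
  refine NonUnitalStarAlgHom.ext fun x => ?_
  rw [show f x = f (1 * x) by rw [one_mul], map_mul, h2, zero_mul]
  rfl

theorem hom_zero (hU : ∀ n, {n} ∉ U) (hπ : IsTracialUltrapower T.τ U π σ)
    (hL : LyapProp T.τ) (hN : HasTrivialCenter N) (lam : G → K →L[ℂ] K) (hlam : IsLeftRegular b lam)
    (f : Q →⋆ₙₐ[ℂ] Elt (vnGen (Set.range lam))) : f = 0 := by
  have h1 := eq_lamK b lam hlam
  subst h1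
  exact hom_zero_aux b hU hπ hL hN f

end group

end Pool.Agent.KS6_19.UP
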